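import Pool.Agent.helper63.Dg4.Spec

/-!
# Project dg4 (MP_a87378): DAT
-/

set_option autoImplicit false

namespace Pool.Agent.helper63.Dg4

open Encodable Pool.Agent.helper63.Diag

theorem DAT_res (σ : List ℕ) : res (fun j => σ.getD j 0) σ.length = σ := by
  apply List.ext_getElem
  · simp
  · intro i h1 h2
    simp [res, List.getElem?_eq_getElem h2]

theorem DAT (hEXT : EXT_stmt) : DAT_stmt := by
  intro p κ x B hκ
  obtain ⟨v, hv⟩ := p.ne
  set s : ℕ := B + p.σ.length with hs
  set i : ℕ := Nat.pair κ (Nat.pair x s) with hi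
  have hsi : s ≤ i := (Nat.right_le_pair x s).trans (Nat.right_le_pair κ _)
  have hcol : col i = κ := by simp [col, hi]
  have hel : el i = x := by simp [el, hi]
  set y : ℕ := p.Y κ (p.fl (v (Nat.pair κ x))) + 1 with hy
  let g : ℕ → ℕ := fun j => if j < p.σ.length then p.σ.getD j 0 else if j = i then y else 0
  have hgi : g i = y := by
    have h1 : ¬ i < p.σ.length := by omega
    show (if i < p.σ.length then p.σ.getD i 0 else if i = i then y else 0) = y
    rw [if_neg h1, if_pos rfl]
  have hsat : Sat p g := by
    refine ⟨?_, v, hv, ?_⟩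
    · have h1 : res g p.σ.length = res (fun j => p.σ.getD j 0) p.σ.length :=
        res_congr fun j hj => if_pos hj
      rw [h1, DAT_res]
    · intro j hj
      by_cases hji : j = i
      · subst hji
        refine ⟨fun h => ?_, fun _ => Or.inr ?_⟩
        · rw [hcol, hκ] at h
          exact absurd h (by norm_num)
        · rw [hgi, hcol, hel, hy]
          simp only [Nat.add_sub_cancel]
          exact p.yc v hv κ hκ x
      · have h0 : g j = 0 := by
          show (if j < p.σ.length then p.σ.getD j 0 else if j = i then y else 0) = 0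
          rw [if_neg (by omega), if_neg hji]
        exact ⟨fun _ => h0, fun _ => Or.inl h0⟩
  obtain ⟨q, hq1, hq2, hq3, -, -, -⟩ := hEXT p g (i + 1) hsat (by omega)
  refine ⟨q, hq1, hq2, i, ⟨by omega, ?_⟩, ⟨hcol, hel⟩, ?_⟩
  · rw [hq3, res_length]
    exact Nat.lt_succ_self i
  · rw [hq3, res_getD _ (Nat.lt_succ_self i), hgi]
    exact Nat.succ_ne_zero _

end Pool.Agent.helper63.Dg4
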